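import Pool.Agent.H10.T2.Targets11
import Pool.Agent.H33.T2.C1

/-!
# E1: the equality of the `T`-sums in case 2, relative to `P`
-/

open scoped Classical ComplexConjugate

namespace Pool.Agent.H23.T2

open AMc AMe AMt Pool.Agent.H77.EA.All Pool.Agent.H33.T2

section

variable {Γ : Type} [Group Γ]

theorem e1_vs {F : Type} [CommRing F] {K : Subgroup Γ} {g g' : Γ} (h : g⁻¹ * g' ∈ K)
    {z : MonoidAlgebra F Γ} (hz : z ∈ VS F K g) : z ∈ VS F K g' := by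
  refine ⟨fun x hx => ?_, hz.2⟩
  have h1 := hz.1 x hx
  have e : g'⁻¹ * x = (g⁻¹ * g')⁻¹ * (g⁻¹ * x) := by group
  rw [e]
  exact K.mul_mem (K.inv_mem h) h1

theorem e1_leK {K Z : Subgroup Γ} {A : ℕ → Subgroup Γ} {q : ℕ} (h : CPn K Z A q) : A 0 ≤ K := by
  rw [h.gen]
  exact le_sup_of_le_right (le_iSup₂_of_le 0 (Finset.mem_range.2 h.pos) le_rfl)

theorem e1_cen {K Z : Subgroup Γ} {A : ℕ → Subgroup Γ} {q : ℕ} (h : CPn K Z A q) {c : Γ}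
    (hc : c ∈ Ap Z A ((Finset.range q).erase 0)) : ∀ a ∈ A 0, a * c = c * a := by
  have h1 : Ap Z A ((Finset.range q).erase 0) ≤ Subgroup.centralizer (A 0 : Set Γ) := by
    refine sup_le ?_ (iSup₂_le fun i hi => ?_)
    · intro z hz
      rw [Subgroup.mem_centralizer_iff]
      intro a ha
      exact (h.cen z hz a (e1_leK h ha)).symm
    · intro b hb
      rw [Subgroup.mem_centralizer_iff]
      intro a ha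
      rw [Finset.mem_erase, Finset.mem_range] at hi
      exact h.com 0 h.pos i hi.2 (Ne.symm hi.1) a ha b hb
  exact fun a ha => (Subgroup.mem_centralizer_iff.1 (h1 hc)) a ha

theorem e1_root (TM : T_TM) (KE : T_KE) (UN : AMt.T_UN) [Fintype Γ] {F : Type} [Field F]
    (π : integralClosure ℤ ℂ →+* F) (hπ : Function.Surjective π) (ℓ : ℕ) [Fact ℓ.Prime]
    [CharP F ℓ] {K : Subgroup Γ} {θ : Γ → ℂ} (hθ : θ ∈ IrrS K) {x y u κ₀ k : Γ}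
    (hx : Nm x K) (hy : Nm y K) (hxθ : cj x θ = θ) (hyθ : cj y θ = θ) (hu : Nm u K)
    {ζ : MonoidAlgebra F Γ} (hζ : ζ ∈ VS F K u) (hζu : lam π θ (ζ ^ Fintype.card Γ) ≠ 0)
    (hκ : κ₀ ∈ K) (hc : ∀ a ∈ K, a * (κ₀⁻¹ * k) = κ₀⁻¹ * k * a)
    (h : x * y * x⁻¹ * y⁻¹ = u * k) :
    ∃ r : ℕ, ¬ ℓ ∣ r ∧
      (Te π ℓ (cb π K θ x y (ζ * MonoidAlgebra.single (κ₀⁻¹ * k) 1)))⁻¹ ^ r = 1 := by
  have hcc : κ₀⁻¹ * k ∈ Subgroup.centralizer (K : Set Γ) := by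
    rw [Subgroup.mem_centralizer_iff]
    exact fun a ha => hc a ha
  obtain ⟨h1, -, h2, -⟩ := ((UN F π hπ ℓ Γ K θ hθ).1 u hu ζ hζ hζu).2.2.2.2 _ hcc
  have h3 : (u * (κ₀⁻¹ * k))⁻¹ * (x * y * x⁻¹ * y⁻¹) ∈ K := by
    rw [h]
    have h4 := hc κ₀ hκ
    have e : (u * (κ₀⁻¹ * k))⁻¹ * (u * k) = (κ₀⁻¹ * k)⁻¹ * (κ₀ * (κ₀⁻¹ * k)) := by group
    rw [e, h4]
    have e2 : (κ₀⁻¹ * k)⁻¹ * (κ₀⁻¹ * k * κ₀) = κ₀ := by group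
    rw [e2]
    exact hκ
  obtain ⟨c', -, -, h5, h6⟩ := (KE F π hπ ℓ Γ K θ hθ x y hx hy hxθ hyθ).2.1 _ (e1_vs h3 h1)
  have h7 : cb π K θ x y (ζ * MonoidAlgebra.single (κ₀⁻¹ * k) 1) ≠ 0 := by
    rw [h5]
    exact h6.2 h2
  obtain ⟨-, -, ⟨r, hr, h8⟩, -⟩ := (TM F π hπ ℓ).1 _ h7
  exact ⟨r, hr, by rw [inv_pow, h8, inv_one]⟩

theorem e1_fin [Fintype Γ] (X : Subgroup Γ) : (IrrS X).Finite := by
  obtain ⟨fs, h, -⟩ := fS9 Γ X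
  exact (Finset.finite_toSet fs).subset fun θ hθ => (h θ).2 hθ

end

/-- E1 -/
theorem e1 (EU : T_EU) (EW : T_EW) (EK : T_EK) (EM : T_EM) (EB : T_EB) (EE1 : T_EE1)
    (GS : T_GS) (TQ : T_TQ) (NL : T_NL) (RC : T_RC) (EG : T_EG) (TM : T_TM) (KE : T_KE)
    (UN : AMt.T_UN) : AMt.T_E1 := by
  intro F _ π hπ ℓ _ _ 𝓓 n Γ _ _ G Y K D P Z L A d q ν ξ ξ₁ Θ₀ θA x y u k h1 hu huD huo huA hk
    hxy hGB ζ hζ hζu
  have hl : ℓ.Prime := Fact.out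
  obtain ⟨⟨hDp, hDY, hYd, hidx, -, -, -, ⟨e, hq⟩, -, -, hDN, -⟩, -, ⟨hPg, -, -, -, hAK⟩, -⟩ :=
    EG F π hπ ℓ 𝓓 n Γ G Y K D P Z L A d q ν ξ ξ₁ Θ₀ θA x y h1
  obtain ⟨κ, g, w, hU, hκ, hκ0⟩ :=
    EW F π hπ ℓ 𝓓 n Γ G Y K D P Z L A d q ν ξ ξ₁ Θ₀ θA x y u k h1 huD huA hk hxy
  obtain ⟨ζ', hζ', hζ'u, hinv, hinv', hζl, hBl, hCr, z, hzK, hzY, hzu, hpz, hpz', hbK, hbY⟩ :=
    EU F π hπ ℓ 𝓓 n Γ G Y K D P Z L A d q ν ξ ξ₁ Θ₀ θA x y u k κ g w h1 hu huo hU hκ ζ hζ hζu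
  obtain ⟨EK1, EK2⟩ := EK F π hπ ℓ 𝓓 n Γ G Y K D P Z L A d q ν ξ ξ₁ Θ₀ θA x y h1
  obtain ⟨EM1, EM2, EM3, EM4⟩ := EM F π hπ ℓ 𝓓 n Γ G Y K D P Z L A d q ν ξ ξ₁ Θ₀ θA x y h1
  have hCE := EE1 F π hπ ℓ 𝓓 n Γ G Y K D P Z L A d q ν ξ ξ₁ Θ₀ θA x y u k κ g w h1 hU hκ0 ζ'
    hζ' hζ'u hinv
  have hxG := (h1.LG h1.xL).1
  have hyG := (h1.LG h1.yL).1
  have hx : x ∈ G ⊓ Subgroup.normalizer (P : Set Γ) := ⟨hxG, h1.px.xP⟩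
  have hy : y ∈ G ⊓ Subgroup.normalizer (P : Set Γ) := ⟨hyG, h1.px.yP⟩
  have hPD : P ≤ D := h1.pg.PD.le
  have hPp : IsPGroup ℓ P := hDp.to_le hPD
  refine (RC F π hπ ℓ Γ G Y P D Z ν ξ ξ₁ h1.nY h1.irr h1.sta hPp (hPD.trans hDY) h1.irr₁
    h1.cor₁ x hx y hy hGB).2.2.2 z hzY hzu ?_
  -- group theory
  have hKY : K ≤ Y := by
    rw [h1.KY]
    exact le_sup_left
  have hq0 : 0 < q := h1.pg.cp.pos
  have hKnY : NIn K Y := ⟨hKY, fun u hu g hg => h1.nK.nor u (h1.nY.le hu) g hg⟩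
  have hKnY' : NIn (K ⊓ Subgroup.normalizer (P : Set Γ)) (Y ⊓ Subgroup.normalizer (P : Set Γ)) :=
    c1_nin hKnY
  have hZK : Z ≤ K := (hAK 0 hq0).2.trans (hAK 0 hq0).1
  have hZKN : Z ≤ K ⊓ Subgroup.normalizer (P : Set Γ) :=
    le_trans (hPg.cp.ZA 0 hq0) (inf_le_inf_right _ (hAK 0 hq0).1)
  have hxZ : ∀ z ∈ Z, x * z = z * x := fun z hz => (h1.cen.cen z hz x hx.1).symm
  have hyZ : ∀ z ∈ Z, y * z = z * y := fun z hz => (h1.cen.cen z hz y hy.1).symm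
  have hxN : Nm x (Subgroup.normalizer (P : Set Γ)) := ex0_self hx.2
  have hyN : Nm y (Subgroup.normalizer (P : Set Γ)) := ex0_self hy.2
  have huN : Nm u (Subgroup.normalizer (P : Set Γ)) := by
    refine ex0_self ?_
    rw [Subgroup.mem_normalizer_iff]
    intro p
    have h2 : ∀ p ∈ P, u * p * u⁻¹ = p := by
      intro p hp
      rw [← Subgroup.mem_centralizer_iff.1 huD p (hPD hp), mul_inv_cancel_right]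
    constructor
    · intro hp
      rw [h2 p hp]
      exact hp
    · intro hp
      have h3 := h2 _ hp
      have h4 : u * p * u⁻¹ = p := by
        have e1 : u * (u * p * u⁻¹) * u⁻¹ = u * p * u⁻¹ := h3
        have e2 : u * p * u⁻¹ = u⁻¹ * (u * (u * p * u⁻¹) * u⁻¹) * u := by group
        rw [e1] at e2
        rw [e2]
        group
      rwa [h4] at hp
  have hnx : ∀ {S : Subgroup Γ} {g : Γ}, Nm g S → Nm g (Subgroup.normalizer (P : Set Γ)) →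
      Nm g (S ⊓ Subgroup.normalizer (P : Set Γ)) := by
    intro S g hg hg' v
    rw [Subgroup.mem_inf, Subgroup.mem_inf, hg v, hg' v]
  have hxY := c1_nm h1.nY hx.1
  have hyY := c1_nm h1.nY hy.1
  have hxK := c1_nm h1.nK hx.1
  have hyK := c1_nm h1.nK hy.1
  -- global
  obtain ⟨g1, g2, g3⟩ := c1_tq (KK := K0N π ℓ Y ξ D Z ν) (LL := LKG π ℓ Y K D Z ν Θ₀) hKnY
    (fun η hη => hη.1.1) (fun Θ hΘ => ⟨hΘ.1.1, hΘ.2.2⟩) EK1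
  have hG := TQ F π hπ ℓ Γ K Y G x y (K0N π ℓ Y ξ D Z ν) (LKG π ℓ Y K D Z ν Θ₀) h1.nK h1.nY hKY
    h1.cop hidx hx.1 hy.1 g1 g2 g3
    (fun η hη => ⟨c1_sta hxY (h1.sta x hx.1) (fun z hz => (hxZ z hz).symm) η hη,
      c1_sta hyY (h1.sta y hy.1) (fun z hz => (hyZ z hz).symm) η hη⟩) z hzK hzY
  have hTGu : ∀ θ ∈ TGl π ℓ D P Z A d q ν θA, lam π θ (ζ' ^ Fintype.card Γ) ≠ 0 :=
    fun θ hθ => hBl θ hθ.1.1 hθ.1.2.1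
  have hG' := EB F π hπ ℓ Γ K Z D P A d q ν x y u k κ g w (LKG π ℓ Y K D Z ν Θ₀)
    (TGl π ℓ D P Z A d q ν θA) h1.pg hDp h1.px hU
    ⟨hZK, fun z hz g hg => h1.cen.cen z hz g (h1.nK.le hg), h1.cen.one, h1.cen.mul⟩
    (fun Θ hΘ => ⟨hΘ.1.1, EM1 Θ hΘ⟩) (fun θ hθ => ⟨hθ.1.1, hθ.2.1, hθ.2.2.1⟩)
    (fun θ hθ Θ hΘ ho => EM2 θ hθ Θ hΘ ho) ζ' hζ' hinv hTGu
  -- local
  obtain ⟨l1, l2, l3⟩ := c1_tq
    (KK := K0N π ℓ (Y ⊓ Subgroup.normalizer (P : Set Γ)) ξ₁ D Z ν)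
    (LL := LKP π ℓ Y K D P Z (A 0) ν θA) hKnY'
    (fun η hη => hη.1.1) (fun Θ hΘ => ⟨hΘ.1, hΘ.2.2.2.2⟩) EK2
  have hcopN : ¬ ℓ ∣ (Y ⊓ Subgroup.normalizer (P : Set Γ)).relIndex
      (G ⊓ Subgroup.normalizer (P : Set Γ)) := fun h => h1.cop (h.trans (c1_rel h1.nY))
  have hidxN : ∃ m, (K ⊓ Subgroup.normalizer (P : Set Γ)).relIndex
      (Y ⊓ Subgroup.normalizer (P : Set Γ)) = ℓ ^ m := by
    obtain ⟨m, hm⟩ := hidx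
    have h2 := c1_rel (N := Subgroup.normalizer (P : Set Γ)) hKnY
    rw [hm] at h2
    obtain ⟨m', -, h3⟩ := (Nat.dvd_prime_pow hl).1 h2
    exact ⟨m', h3⟩
  have hL := TQ F π hπ ℓ Γ (K ⊓ Subgroup.normalizer (P : Set Γ))
    (Y ⊓ Subgroup.normalizer (P : Set Γ)) (G ⊓ Subgroup.normalizer (P : Set Γ)) x y
    (K0N π ℓ (Y ⊓ Subgroup.normalizer (P : Set Γ)) ξ₁ D Z ν) (LKP π ℓ Y K D P Z (A 0) ν θA)
    (c1_nin h1.nK) (c1_nin h1.nY) hKnY'.le hcopN hidxN hx hy l1 l2 l3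
    (fun η hη => ⟨c1_sta (hnx hxY hxN) h1.stx (fun z hz => (hxZ z hz).symm) η hη,
      c1_sta (hnx hyY hyN) h1.sty (fun z hz => (hyZ z hz).symm) η hη⟩) (br P z) hbK hbY
  have hUN : Uk Z D P (fun i => A i ⊓ Subgroup.normalizer (P : Set Γ)) d q x y u k κ g w :=
    { uD := hU.uD
      uA := hnx hU.uA huN
      h := hU.h
      κA := hκ
      kκ := hU.kκ
      gP := fun i hi => ⟨(hU.gP i hi).1, fun a ha => (hU.gP i hi).2 a ha.1⟩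
      wZ := hU.wZ
      κg := hU.κg }
  have hPx : Px Z D P ((fun i => A i ⊓ Subgroup.normalizer (P : Set Γ)) 0) x y :=
    { xD := h1.px.xD
      yD := h1.px.yD
      xP := h1.px.xP
      yP := h1.px.yP
      xA := hnx h1.px.xA hxN
      yA := hnx h1.px.yA hyN
      yt := h1.px.yt
      xZ := h1.px.xZ
      yZ := h1.px.yZ }
  have hTLu : ∀ θ ∈ TLo π ℓ D P Z A d q ν θA, lam π θ (br P ζ' ^ Fintype.card Γ) ≠ 0 :=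
    fun θ hθ => hCr θ hθ.1 hθ.2.1
  have hL' := EB F π hπ ℓ Γ (K ⊓ Subgroup.normalizer (P : Set Γ)) Z D P
    (fun i => A i ⊓ Subgroup.normalizer (P : Set Γ)) d q ν x y u k κ g w
    (LKP π ℓ Y K D P Z (A 0) ν θA) (TLo π ℓ D P Z A d q ν θA) hPg hDp hPx hUN
    ⟨hZKN, fun z hz g hg => h1.cen.cen z hz g (h1.nK.le hg.1), h1.cen.one, h1.cen.mul⟩
    (fun Θ hΘ => ⟨hΘ.1, EM3 Θ hΘ⟩) (fun θ hθ => ⟨hθ.1, hθ.2.2.2.1, hθ.2.2.2.2.1⟩)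
    (fun θ hθ Θ hΘ ho => EM4 θ hθ Θ hΘ ho) (br P ζ') hζl hinv' hTLu
  -- the numbers of linear characters
  have hNL := NL Γ K Y (Y ⊓ Subgroup.normalizer (P : Set Γ)) x y hKnY inf_le_left
    (fun g hg => by
      obtain ⟨a, ha, d, hd, rfl⟩ := hYd g hg
      refine ⟨a⁻¹, K.inv_mem ha, ?_⟩
      rw [inv_mul_cancel_left]
      exact ⟨hDY hd, hDN hd⟩) hxK hyK hxY hyY (hnx hxY hxN) (hnx hyY hyN)
  have e1 : K ⊓ (Y ⊓ Subgroup.normalizer (P : Set Γ)) =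
      K ⊓ Subgroup.normalizer (P : Set Γ) := by
    rw [← inf_assoc, inf_eq_left.2 hKY]
  rw [e1] at hNL
  -- the powers
  have hc0 : ∀ a ∈ A 0, a * ((κ 0)⁻¹ * k) = (κ 0)⁻¹ * k * a := e1_cen h1.pg.cp hκ0.1
  have hGS := GS ℓ (Γ → ℂ) (Γ → ℂ)
    {θ | θ ∈ TGl π ℓ D P Z A d q ν θA ∧ cj x θ = θ ∧ cj y θ = θ}
    {θ | θ ∈ TLo π ℓ D P Z A d q ν θA ∧ cj x θ = θ ∧ cj y θ = θ}
    (fun θ => (Te π ℓ (cb π (A 0) θ x y (ζ' * MonoidAlgebra.single ((κ 0)⁻¹ * k) 1)))⁻¹)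
    (fun θ => (Te π ℓ (cb π (A 0 ⊓ Subgroup.normalizer (P : Set Γ)) θ x y
      (br P ζ' * MonoidAlgebra.single ((κ 0)⁻¹ * k) 1)))⁻¹)
    ((e1_fin (A 0)).subset fun θ hθ => hθ.1.1.1)
    ((e1_fin (A 0 ⊓ Subgroup.normalizer (P : Set Γ))).subset fun θ hθ => hθ.1.1)
    (fun θ hθ => e1_root TM KE UN π hπ ℓ hθ.1.1.1 h1.px.xA h1.px.yA hθ.2.1 hθ.2.2 hU.uA hζ'
      (hTGu θ hθ.1) (hU.κA 0 hq0) hc0 hxy)
    (fun θ hθ => e1_root TM KE UN π hπ ℓ hθ.1.1 (hnx h1.px.xA hxN) (hnx h1.px.yA hyN) hθ.2.1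
      hθ.2.2 (hnx hU.uA huN) hζl (hTLu θ hθ.1) (hκ 0 hq0) (fun a ha => hc0 a ha.1) hxy)
    hCE e
  rw [← hq] at hGS
  rw [hpz] at hG'
  rw [hpz'] at hL'
  rw [hG, hL, hG', hL', hNL]
  congr 2

end Pool.Agent.H23.T2
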